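import Mathlib

set_option autoImplicit false

namespace Pool.Agent.Results.MP_b6be33_co.Disproof

/-- adjacency rows of the graph, as bit masks -/
def rows : List ℕ := [390, 225, 297, 180, 360, 30, 402, 75, 85]

/-- Boolean adjacency -/
def adjB (u v : Fin 9) : Bool := (rows.getD u.val 0).testBit v.val

/-- the graph on 9 vertices -/
def G : SimpleGraph (Fin 9) where
  Adj u v := adjB u v = true
  symm := ⟨by decide +kernel⟩
  loopless := ⟨by decide +kernel⟩

instance : DecidableRel G.Adj := fun u v => inferInstanceAs (Decidable (adjB u v = true))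

/-- backtracking check over all maps extending `acc` that turn `G` into its complement -/
def chk : List (Fin 9) → List (Fin 9 × Fin 9) → Bool
  | [], _ => false
  | v :: vs, acc =>
    (List.finRange 9).all fun w =>
      !(acc.all fun p => (adjB p.1 v == !(adjB p.2 w)) && !(decide (p.2 = w))) ||
        chk vs ((v, w) :: acc)

theorem chk_sound (σ : Fin 9 → Fin 9)
    (hσ : ∀ u v, u ≠ v → (adjB u v = !(adjB (σ u) (σ v))) ∧ σ u ≠ σ v) :
    ∀ (vs : List (Fin 9)) (acc : List (Fin 9 × Fin 9)),
      (∀ p ∈ acc, p.2 = σ p.1) → (∀ p ∈ acc, p.1 ∉ vs) → vs.Nodup →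
      chk vs acc = true → False := by
  intro vs
  induction vs with
  | nil => intro acc _ _ _ h; simp [chk] at h
  | cons v vs ih =>
    intro acc h1 h2 h3 h
    rw [chk, List.all_eq_true] at h
    have hw := h (σ v) (List.mem_finRange _)
    rw [Bool.or_eq_true] at hw
    have hcompat : (acc.all fun p => (adjB p.1 v == !(adjB p.2 (σ v))) && !(decide (p.2 = σ v))) = true := by
      rw [List.all_eq_true]
      intro p hp
      have hpv : p.1 ≠ v := by
        intro e
        exact h2 p hp (by simp [e])
      obtain ⟨ha, hb⟩ := hσ p.1 v hpv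
      have e := h1 p hp
      rw [e]
      simp [← ha, hb]
    rw [hcompat] at hw
    have hw' : chk vs ((v, σ v) :: acc) = true := by simpa using hw
    refine ih ((v, σ v) :: acc) ?_ ?_ (List.nodup_cons.mp h3).2 hw'
    · intro p hp
      rcases List.mem_cons.mp hp with rfl | hp
      · rfl
      · exact h1 p hp
    · intro p hp
      rcases List.mem_cons.mp hp with rfl | hp
      · exact (List.nodup_cons.mp h3).1
      · intro hmem
        exact h2 p hp (List.mem_cons_of_mem _ hmem)

theorem chk_true : chk [0, 1, 2, 3, 4, 5, 6, 8] [(7, 7)] = true := by decide +kernel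

/-- an explicit isomorphism onto the complement -/
def perm : Fin 9 → Fin 9 := ![1, 2, 3, 0, 5, 6, 7, 4, 8]

/-- its inverse -/
def permInv : Fin 9 → Fin 9 := ![3, 0, 1, 2, 7, 4, 5, 6, 8]

/-- There are `k` and a regular self-complementary graph on `4k+1` vertices with a vertex `v`
lying in exactly `k(k-1)` triangles (3-cliques) such that no isomorphism from the graph onto
its complement fixes `v`. -/
theorem result :
    ∃ (k : ℕ) (G : SimpleGraph (Fin (4 * k + 1))) (_ : DecidableRel G.Adj),
      (∃ d : ℕ, G.IsRegularOfDegree d) ∧ Nonempty (G ≃g Gᶜ) ∧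
      ∃ v : Fin (4 * k + 1),
        ((G.cliqueFinset 3).filter (fun s => v ∈ s)).card = k * (k - 1) ∧
        ∀ σ : G ≃g Gᶜ, σ v ≠ v := by
  refine ⟨2, G, inferInstance, ⟨4, ?_⟩, ?_, 7, ?_, ?_⟩
  · change ∀ v : Fin 9, G.degree v = 4
    decide +kernel
  · refine ⟨⟨⟨perm, permInv, by decide +kernel, by decide +kernel⟩, ?_⟩⟩
    intro a b
    revert a b
    change ∀ a b : Fin 9, Gᶜ.Adj (perm a) (perm b) ↔ G.Adj a b
    decide +kernel
  · decide +kernel
  · intro σ h7
    have hσ : ∀ u v : Fin 9, u ≠ v →
        (adjB u v = !(adjB (σ u) (σ v))) ∧ (σ u : Fin 9) ≠ σ v := by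
      intro u v huv
      have hne : (σ u : Fin 9) ≠ σ v := fun e => huv (σ.injective e)
      refine ⟨?_, hne⟩
      have h := σ.map_rel_iff (a := u) (b := v)
      rw [SimpleGraph.compl_adj] at h
      have h' : (¬ (adjB (σ u) (σ v) = true)) ↔ (adjB u v = true) := by
        constructor
        · intro hh; exact h.mp ⟨hne, hh⟩
        · intro hh; exact (h.mpr hh).2
      cases h1 : adjB u v <;> cases h2 : adjB (σ u) (σ v) <;> simp_all
    refine chk_sound σ hσ [0, 1, 2, 3, 4, 5, 6, 8] [(7, 7)] ?_ ?_ (by decide) chk_true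
    · intro p hp
      rw [List.mem_singleton] at hp
      subst hp
      exact h7.symm
    · intro p hp
      rw [List.mem_singleton] at hp
      subst hp
      decide

end Pool.Agent.Results.MP_b6be33_co.Disproof
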